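import Mathlib
import Pool.Agent.Helper15.KP.Defs

/-!
# KP: the algebra of the three points of a plane cubic on the line at infinity

Project KP (MP_83b46e_ag). Polynomial identities.
-/

set_option linter.unusedSectionVars false

namespace Pool.Agent.Helper15.KP

open Polynomial

section ring

variable {R : Type*} [CommRing R]

lemma rts_perm {c : Fin 10 → R} {v : Fin 3 → R} (h : Rts c v) {i k' m : Fin 3} (h1 : i ≠ k')
    (h2 : k' ≠ m) (h3 : m ≠ i) : c 1 = - c 0 * (v i + v k' + v m) ∧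
    c 3 = c 0 * (v i * v k' + v k' * v m + v m * v i) ∧ c 6 = - c 0 * v i * v k' * v m := by
  obtain ⟨e1, e3, e6⟩ := h
  fin_cases i <;> fin_cases k' <;> first | exact absurd rfl h1 | skip
  all_goals
    fin_cases m <;> first | exact absurd rfl h2 | exact absurd rfl h3 | skip
  all_goals
    refine ⟨?_, ?_, ?_⟩
    · rw [e1]; simp <;> ring
    · rw [e3]; simp <;> ring
    · rw [e6]; simp <;> ring

theorem xx_symm {c : Fin 10 → R} {v : Fin 3 → R} (h : Rts c v) {i k' m : Fin 3} (h1 : i ≠ k')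
    (h2 : k' ≠ m) (h3 : m ≠ i) (s t : R) : xx c v i k' m s t = xx c v m k' i s t := by
  obtain ⟨e1, e3, e6⟩ := rts_perm h h1 h2 h3
  unfold xx xr ww q3 q2 a1 a0 b2 b1 b0
  rw [e1, e3]
  ring

theorem yy_symm {c : Fin 10 → R} {v : Fin 3 → R} (h : Rts c v) {i k' m : Fin 3} (h1 : i ≠ k')
    (h2 : k' ≠ m) (h3 : m ≠ i) {s t : R} (h0 : cub c s t = 0) : yy c v i k' m s t = yy c v m k' i s t := by
  obtain ⟨e1, e3, e6⟩ := rts_perm h h1 h2 h3
  have h9 : c 9 = -(c 0 * s ^ 3 + c 1 * s ^ 2 * t + c 2 * s ^ 2 + c 3 * s * t ^ 2 + c 4 * s * t + c 5 * s +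
      c 6 * t ^ 3 + c 7 * t ^ 2 + c 8 * t) := by
    unfold cub at h0
    linear_combination h0
  unfold yy yr ww q3 q2 q1 a1 a0 b2 b1 b0
  rw [h9, e1, e3, e6]
  ring

theorem q4_eq {c : Fin 10 → R} {v : Fin 3 → R} (h : Rts c v) {i k' m : Fin 3} (h1 : i ≠ k')
    (h2 : k' ≠ m) (h3 : m ≠ i) : q4 c (v m) = (c 0 * (v i - v k')) ^ 2 := by
  obtain ⟨e1, e3, e6⟩ := rts_perm h h1 h2 h3
  unfold q4 a1 b2
  rw [e1, e3]
  ring

theorem bin_eq {c : Fin 10 → R} {v : Fin 3 → R} (h : Rts c v) (m : Fin 3) : bin c (v m) = 0 := by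
  obtain ⟨e1, e3, e6⟩ := h
  unfold bin
  rw [e1, e3, e6]
  fin_cases m <;> simp <;> ring

theorem PS_eq {c : Fin 10 → R} {v : R} (h : bin c v = 0) :
    PS c = - (12 * q4 c v * q0 c v - 3 * q3 c v * q1 c v + q2 c v ^ 2) := by
  have h6 : c 6 = -(c 0 * v ^ 3 + c 1 * v ^ 2 + c 3 * v) := by
    unfold bin at h
    linear_combination h
  unfold PS q4 q3 q2 q1 q0 a1 a0 b2 b1 b0
  rw [h6]
  ring

theorem PT_eq {c : Fin 10 → R} {v : R} (h : bin c v = 0) :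
    2 * PT c = - (72 * q4 c v * q2 c v * q0 c v + 9 * q3 c v * q2 c v * q1 c v - 27 * q4 c v * q1 c v ^ 2 -
      27 * q0 c v * q3 c v ^ 2 - 2 * q2 c v ^ 3) := by
  have h6 : c 6 = -(c 0 * v ^ 3 + c 1 * v ^ 2 + c 3 * v) := by
    unfold bin at h
    linear_combination h
  unfold PT q4 q3 q2 q1 q0 a1 a0 b2 b1 b0
  rw [h6]
  ring

theorem ww_sq {c : Fin 10 → R} {v s t : R} (h : bin c v = 0) (h0 : cub c s t = 0) :
    ww c v s t ^ 2 = q4 c v * (s - v * t) ^ 4 + q3 c v * (s - v * t) ^ 3 + q2 c v * (s - v * t) ^ 2 +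
      q1 c v * (s - v * t) + q0 c v := by
  have h6 : c 6 = -(c 0 * v ^ 3 + c 1 * v ^ 2 + c 3 * v) := by
    unfold bin at h
    linear_combination h
  have h9 : c 9 = -(c 0 * s ^ 3 + c 1 * s ^ 2 * t + c 2 * s ^ 2 + c 3 * s * t ^ 2 + c 4 * s * t + c 5 * s +
      c 6 * t ^ 3 + c 7 * t ^ 2 + c 8 * t) := by
    unfold cub at h0
    linear_combination h0
  unfold ww q4 q3 q2 q1 q0 a1 a0 b2 b1 b0
  rw [h9, h6]
  ring

/-- The Weierstrass equation of the quartic. -/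
theorem weier_quartic {q e3 e2 e1 e0 r w : R} (h : w ^ 2 = q ^ 2 * r ^ 4 + e3 * r ^ 3 + e2 * r ^ 2 + e1 * r + e0) :
    yr q e3 e2 e1 r w ^ 2 = xr q e3 e2 r w ^ 3 -
      27 * (12 * q ^ 2 * e0 - 3 * e3 * e1 + e2 ^ 2) * xr q e3 e2 r w -
      27 * (72 * q ^ 2 * e2 * e0 + 9 * e3 * e2 * e1 - 27 * q ^ 2 * e1 ^ 2 - 27 * e0 * e3 ^ 2 - 2 * e2 ^ 3) := by
  unfold xr yr
  linear_combination (729 * (4 * q ^ 2 * r + e3) ^ 2 - 972 * q ^ 2 * (18 * q ^ 2 * r ^ 2 + 9 * e3 * r + 3 * e2) -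
    5832 * q ^ 3 * w) * h

/-- The inverse: linear equation for `r`. -/
theorem inv_r (q e3 e2 e1 r w : R) :
    4 * q * yr q e3 e2 e1 r w = r * (q ^ 2 * 24 * xr q e3 e2 r w + 144 * q ^ 2 * e2 - 54 * e3 ^ 2) * 1 +
      (108 * q ^ 2 * e1 + 6 * e3 * xr q e3 e2 r w - 18 * e3 * e2) := by
  unfold xr yr
  ring

end ring

theorem weier {R : Type*} [CommRing R] [IsDomain R] [CharZero R] {c : Fin 10 → R} {v : Fin 3 → R} (h : Rts c v)
    {i k' m : Fin 3} (h1 : i ≠ k') (h2 : k' ≠ m) (h3 : m ≠ i) {s t : R} (h0 : cub c s t = 0) :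
    yy c v i k' m s t ^ 2 = xx c v i k' m s t ^ 3 + 27 * PS c * xx c v i k' m s t + 54 * PT c := by
  have hb := bin_eq h m
  have hq := q4_eq h h1 h2 h3
  have hw := ww_sq hb h0
  rw [hq] at hw
  have hS := PS_eq hb
  have hT := PT_eq hb
  rw [hq] at hS hT
  have hW := weier_quartic hw
  have e1 : yy c v i k' m s t = yr (c 0 * (v i - v k')) (q3 c (v m)) (q2 c (v m)) (q1 c (v m)) (s - v m * t)
    (ww c (v m) s t) := rfl
  have e2 : xx c v i k' m s t = xr (c 0 * (v i - v k')) (q3 c (v m)) (q2 c (v m)) (s - v m * t)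
    (ww c (v m) s t) := rfl
  rw [e1, e2]
  linear_combination hW + 27 * xr (c 0 * (v i - v k')) (q3 c (v m)) (q2 c (v m)) (s - v m * t)
    (ww c (v m) s t) * (-hS) - 27 * hT

/-- The quartic is not a square. -/
theorem not_sq {K : Type*} [Field K] [CharZero K] {c : Fin 10 → K} (hD : Dsc c ≠ 0) {v : K} (h : bin c v = 0)
    (g : K[X]) :
    g ^ 2 ≠ C (q4 c v) * X ^ 4 + C (q3 c v) * X ^ 3 + C (q2 c v) * X ^ 2 + C (q1 c v) * X + C (q0 c v) := by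
  intro hg
  obtain ⟨a, ha⟩ : ∃ a, a = q4 c v := ⟨_, rfl⟩
  obtain ⟨b, hb⟩ : ∃ a, a = q3 c v := ⟨_, rfl⟩
  obtain ⟨d, hd⟩ : ∃ a, a = q2 c v := ⟨_, rfl⟩
  obtain ⟨e, he⟩ : ∃ a, a = q1 c v := ⟨_, rfl⟩
  obtain ⟨f, hf⟩ : ∃ a, a = q0 c v := ⟨_, rfl⟩
  have hS := PS_eq h
  have hT := PT_eq h
  rw [← ha, ← hb, ← hd, ← he, ← hf] at hg hS hT
  have hdeg : g.natDegree ≤ 2 := by
    have h1 : (g ^ 2).natDegree ≤ 4 := by
      rw [hg]
      compute_degree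
    rw [natDegree_pow] at h1
    omega
  have hg' : g = C (g.coeff 2) * X ^ 2 + C (g.coeff 1) * X + C (g.coeff 0) := by
    conv_lhs => rw [as_sum_range_C_mul_X_pow' (n := 3) g (by omega)]
    rw [Finset.sum_range_succ, Finset.sum_range_succ, Finset.sum_range_succ, Finset.sum_range_zero, pow_one,
      pow_zero, mul_one]
    ring
  obtain ⟨x, hx⟩ : ∃ a, a = g.coeff 2 := ⟨_, rfl⟩
  obtain ⟨y, hy⟩ : ∃ a, a = g.coeff 1 := ⟨_, rfl⟩
  obtain ⟨z, hz⟩ : ∃ a, a = g.coeff 0 := ⟨_, rfl⟩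
  rw [← hx, ← hy, ← hz] at hg'
  have hev : ∀ r : K, (x * r ^ 2 + y * r + z) ^ 2 = a * r ^ 4 + b * r ^ 3 + d * r ^ 2 + e * r + f := by
    intro r
    have h1 := congrArg (Polynomial.eval r) hg
    rw [hg'] at h1
    simpa using h1
  have E0 := hev 0
  have E1 := hev 1
  have E2 := hev (-1)
  have E3 := hev 2
  have E4 := hev (-2)
  have c0 : f = z ^ 2 := by linear_combination -E0
  have c4 : a = x ^ 2 := by
    have : (24 : K) ≠ 0 := by norm_num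
    apply mul_left_cancel₀ this
    linear_combination -E3 - E4 + 4 * E1 + 4 * E2 - 6 * E0
  have c2 : d = y ^ 2 + 2 * x * z := by
    have : (2 : K) ≠ 0 := by norm_num
    apply mul_left_cancel₀ this
    linear_combination -E1 - E2 + 2 * E0 - 2 * c4
  have c3 : b = 2 * x * y := by
    have : (12 : K) ≠ 0 := by norm_num
    apply mul_left_cancel₀ this
    linear_combination -E3 + E4 + 2 * E1 - 2 * E2
  have c1 : e = 2 * y * z := by
    have : (2 : K) ≠ 0 := by norm_num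
    apply mul_left_cancel₀ this
    linear_combination -E1 + E2 - 2 * c3
  rw [c0, c1, c2, c3, c4] at hS hT
  apply hD
  have h4 : (4 : K) ≠ 0 := by norm_num
  apply mul_left_cancel₀ h4
  have hT2 : (2 * PT c) ^ 2 = (-(72 * x ^ 2 * (y ^ 2 + 2 * x * z) * z ^ 2 + 9 * (2 * x * y) * (y ^ 2 + 2 * x * z) *
      (2 * y * z) - 27 * x ^ 2 * (2 * y * z) ^ 2 - 27 * z ^ 2 * (2 * x * y) ^ 2 - 2 * (y ^ 2 + 2 * x * z) ^ 3)) ^ 2 := by
    rw [hT]
  unfold Dsc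
  rw [hS]
  linear_combination hT2

end Pool.Agent.Helper15.KP
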