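import Mathlib
import Pool.Agent.Helper15.KP.Defs
import Pool.Agent.Helper83.PC.Defs

/-!
# KP: the invariants of plane cubics are covariant

`PS (c N) = det N ^ 4 PS (c)`, `PT (c N) = det N ^ 6 PT (c)` for `N ∈ M₃ (k)` and cubic forms `c` with coefficients in
a `k`-algebra: for transvections and diagonal matrices by direct computation, in general by
`Matrix.diagonal_transvection_induction`.
-/

set_option linter.unusedSectionVars false

namespace Pool.Agent.Helper83.KPA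

open Pool.Agent.Helper15.KP (PS PT Dsc)
open Pool.Agent.Helper83.PC (act act_mul pull)

section ring

variable {R : Type*} [CommRing R]

/-- The coefficients after the transvection `01`. -/
def tr01 (c : Fin 10 → R) (t : R) : Fin 10 → R :=
  ![c 0,
    c 1 + 3 * t * c 0,
    c 2,
    c 3 + 2 * t * c 1 + 3 * t ^ 2 * c 0,
    c 4 + 2 * t * c 2,
    c 5,
    c 6 + t * c 3 + t ^ 2 * c 1 + t ^ 3 * c 0,
    c 7 + t * c 4 + t ^ 2 * c 2,
    c 8 + t * c 5,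
    c 9]

lemma PS_tr01 (c : Fin 10 → R) (t : R) : PS (tr01 c t) = PS c := by
  have h0 : tr01 c t 0 = c 0 := rfl
  have h1 : tr01 c t 1 = c 1 + 3 * t * c 0 := rfl
  have h2 : tr01 c t 2 = c 2 := rfl
  have h3 : tr01 c t 3 = c 3 + 2 * t * c 1 + 3 * t ^ 2 * c 0 := rfl
  have h4 : tr01 c t 4 = c 4 + 2 * t * c 2 := rfl
  have h5 : tr01 c t 5 = c 5 := rfl
  have h6 : tr01 c t 6 = c 6 + t * c 3 + t ^ 2 * c 1 + t ^ 3 * c 0 := rfl
  have h7 : tr01 c t 7 = c 7 + t * c 4 + t ^ 2 * c 2 := rfl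
  have h8 : tr01 c t 8 = c 8 + t * c 5 := rfl
  have h9 : tr01 c t 9 = c 9 := rfl
  unfold PS
  rw [h0, h1, h2, h3, h4, h5, h6, h7, h8, h9]
  ring

lemma PT_tr01 (c : Fin 10 → R) (t : R) : PT (tr01 c t) = PT c := by
  have h0 : tr01 c t 0 = c 0 := rfl
  have h1 : tr01 c t 1 = c 1 + 3 * t * c 0 := rfl
  have h2 : tr01 c t 2 = c 2 := rfl
  have h3 : tr01 c t 3 = c 3 + 2 * t * c 1 + 3 * t ^ 2 * c 0 := rfl
  have h4 : tr01 c t 4 = c 4 + 2 * t * c 2 := rfl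
  have h5 : tr01 c t 5 = c 5 := rfl
  have h6 : tr01 c t 6 = c 6 + t * c 3 + t ^ 2 * c 1 + t ^ 3 * c 0 := rfl
  have h7 : tr01 c t 7 = c 7 + t * c 4 + t ^ 2 * c 2 := rfl
  have h8 : tr01 c t 8 = c 8 + t * c 5 := rfl
  have h9 : tr01 c t 9 = c 9 := rfl
  unfold PT
  rw [h0, h1, h2, h3, h4, h5, h6, h7, h8, h9]
  ring

lemma act_tr01 (c : Fin 10 → R) (t : R) : act c (Matrix.transvection 0 1 t) = tr01 c t := by
  funext m
  fin_cases m <;>
  (simp [act, pull, Pool.Agent.Helper83.PC.cub, Pool.Agent.Helper83.PC.dcub, Pool.Agent.Helper83.PC.mcub,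
    Matrix.transvection, Matrix.single, tr01]; try ring)

/-- The coefficients after the transvection `02`. -/
def tr02 (c : Fin 10 → R) (t : R) : Fin 10 → R :=
  ![c 0,
    c 1,
    c 2 + 3 * t * c 0,
    c 3,
    c 4 + 2 * t * c 1,
    c 5 + 2 * t * c 2 + 3 * t ^ 2 * c 0,
    c 6,
    c 7 + t * c 3,
    c 8 + t * c 4 + t ^ 2 * c 1,
    c 9 + t * c 5 + t ^ 2 * c 2 + t ^ 3 * c 0]

lemma PS_tr02 (c : Fin 10 → R) (t : R) : PS (tr02 c t) = PS c := by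
  have h0 : tr02 c t 0 = c 0 := rfl
  have h1 : tr02 c t 1 = c 1 := rfl
  have h2 : tr02 c t 2 = c 2 + 3 * t * c 0 := rfl
  have h3 : tr02 c t 3 = c 3 := rfl
  have h4 : tr02 c t 4 = c 4 + 2 * t * c 1 := rfl
  have h5 : tr02 c t 5 = c 5 + 2 * t * c 2 + 3 * t ^ 2 * c 0 := rfl
  have h6 : tr02 c t 6 = c 6 := rfl
  have h7 : tr02 c t 7 = c 7 + t * c 3 := rfl
  have h8 : tr02 c t 8 = c 8 + t * c 4 + t ^ 2 * c 1 := rfl
  have h9 : tr02 c t 9 = c 9 + t * c 5 + t ^ 2 * c 2 + t ^ 3 * c 0 := rfl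
  unfold PS
  rw [h0, h1, h2, h3, h4, h5, h6, h7, h8, h9]
  ring

lemma PT_tr02 (c : Fin 10 → R) (t : R) : PT (tr02 c t) = PT c := by
  have h0 : tr02 c t 0 = c 0 := rfl
  have h1 : tr02 c t 1 = c 1 := rfl
  have h2 : tr02 c t 2 = c 2 + 3 * t * c 0 := rfl
  have h3 : tr02 c t 3 = c 3 := rfl
  have h4 : tr02 c t 4 = c 4 + 2 * t * c 1 := rfl
  have h5 : tr02 c t 5 = c 5 + 2 * t * c 2 + 3 * t ^ 2 * c 0 := rfl
  have h6 : tr02 c t 6 = c 6 := rfl
  have h7 : tr02 c t 7 = c 7 + t * c 3 := rfl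
  have h8 : tr02 c t 8 = c 8 + t * c 4 + t ^ 2 * c 1 := rfl
  have h9 : tr02 c t 9 = c 9 + t * c 5 + t ^ 2 * c 2 + t ^ 3 * c 0 := rfl
  unfold PT
  rw [h0, h1, h2, h3, h4, h5, h6, h7, h8, h9]
  ring

lemma act_tr02 (c : Fin 10 → R) (t : R) : act c (Matrix.transvection 0 2 t) = tr02 c t := by
  funext m
  fin_cases m <;>
  (simp [act, pull, Pool.Agent.Helper83.PC.cub, Pool.Agent.Helper83.PC.dcub, Pool.Agent.Helper83.PC.mcub,
    Matrix.transvection, Matrix.single, tr02]; try ring)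

/-- The coefficients after the transvection `10`. -/
def tr10 (c : Fin 10 → R) (t : R) : Fin 10 → R :=
  ![c 0 + t * c 1 + t ^ 2 * c 3 + t ^ 3 * c 6,
    c 1 + 2 * t * c 3 + 3 * t ^ 2 * c 6,
    c 2 + t * c 4 + t ^ 2 * c 7,
    c 3 + 3 * t * c 6,
    c 4 + 2 * t * c 7,
    c 5 + t * c 8,
    c 6,
    c 7,
    c 8,
    c 9]

lemma PS_tr10 (c : Fin 10 → R) (t : R) : PS (tr10 c t) = PS c := by
  have h0 : tr10 c t 0 = c 0 + t * c 1 + t ^ 2 * c 3 + t ^ 3 * c 6 := rfl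
  have h1 : tr10 c t 1 = c 1 + 2 * t * c 3 + 3 * t ^ 2 * c 6 := rfl
  have h2 : tr10 c t 2 = c 2 + t * c 4 + t ^ 2 * c 7 := rfl
  have h3 : tr10 c t 3 = c 3 + 3 * t * c 6 := rfl
  have h4 : tr10 c t 4 = c 4 + 2 * t * c 7 := rfl
  have h5 : tr10 c t 5 = c 5 + t * c 8 := rfl
  have h6 : tr10 c t 6 = c 6 := rfl
  have h7 : tr10 c t 7 = c 7 := rfl
  have h8 : tr10 c t 8 = c 8 := rfl
  have h9 : tr10 c t 9 = c 9 := rfl
  unfold PS
  rw [h0, h1, h2, h3, h4, h5, h6, h7, h8, h9]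
  ring

lemma PT_tr10 (c : Fin 10 → R) (t : R) : PT (tr10 c t) = PT c := by
  have h0 : tr10 c t 0 = c 0 + t * c 1 + t ^ 2 * c 3 + t ^ 3 * c 6 := rfl
  have h1 : tr10 c t 1 = c 1 + 2 * t * c 3 + 3 * t ^ 2 * c 6 := rfl
  have h2 : tr10 c t 2 = c 2 + t * c 4 + t ^ 2 * c 7 := rfl
  have h3 : tr10 c t 3 = c 3 + 3 * t * c 6 := rfl
  have h4 : tr10 c t 4 = c 4 + 2 * t * c 7 := rfl
  have h5 : tr10 c t 5 = c 5 + t * c 8 := rfl
  have h6 : tr10 c t 6 = c 6 := rfl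
  have h7 : tr10 c t 7 = c 7 := rfl
  have h8 : tr10 c t 8 = c 8 := rfl
  have h9 : tr10 c t 9 = c 9 := rfl
  unfold PT
  rw [h0, h1, h2, h3, h4, h5, h6, h7, h8, h9]
  ring

lemma act_tr10 (c : Fin 10 → R) (t : R) : act c (Matrix.transvection 1 0 t) = tr10 c t := by
  funext m
  fin_cases m <;>
  (simp [act, pull, Pool.Agent.Helper83.PC.cub, Pool.Agent.Helper83.PC.dcub, Pool.Agent.Helper83.PC.mcub,
    Matrix.transvection, Matrix.single, tr10]; try ring)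

/-- The coefficients after the transvection `12`. -/
def tr12 (c : Fin 10 → R) (t : R) : Fin 10 → R :=
  ![c 0,
    c 1,
    c 2 + t * c 1,
    c 3,
    c 4 + 2 * t * c 3,
    c 5 + t * c 4 + t ^ 2 * c 3,
    c 6,
    c 7 + 3 * t * c 6,
    c 8 + 2 * t * c 7 + 3 * t ^ 2 * c 6,
    c 9 + t * c 8 + t ^ 2 * c 7 + t ^ 3 * c 6]

lemma PS_tr12 (c : Fin 10 → R) (t : R) : PS (tr12 c t) = PS c := by
  have h0 : tr12 c t 0 = c 0 := rfl
  have h1 : tr12 c t 1 = c 1 := rfl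
  have h2 : tr12 c t 2 = c 2 + t * c 1 := rfl
  have h3 : tr12 c t 3 = c 3 := rfl
  have h4 : tr12 c t 4 = c 4 + 2 * t * c 3 := rfl
  have h5 : tr12 c t 5 = c 5 + t * c 4 + t ^ 2 * c 3 := rfl
  have h6 : tr12 c t 6 = c 6 := rfl
  have h7 : tr12 c t 7 = c 7 + 3 * t * c 6 := rfl
  have h8 : tr12 c t 8 = c 8 + 2 * t * c 7 + 3 * t ^ 2 * c 6 := rfl
  have h9 : tr12 c t 9 = c 9 + t * c 8 + t ^ 2 * c 7 + t ^ 3 * c 6 := rfl
  unfold PS
  rw [h0, h1, h2, h3, h4, h5, h6, h7, h8, h9]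
  ring

lemma PT_tr12 (c : Fin 10 → R) (t : R) : PT (tr12 c t) = PT c := by
  have h0 : tr12 c t 0 = c 0 := rfl
  have h1 : tr12 c t 1 = c 1 := rfl
  have h2 : tr12 c t 2 = c 2 + t * c 1 := rfl
  have h3 : tr12 c t 3 = c 3 := rfl
  have h4 : tr12 c t 4 = c 4 + 2 * t * c 3 := rfl
  have h5 : tr12 c t 5 = c 5 + t * c 4 + t ^ 2 * c 3 := rfl
  have h6 : tr12 c t 6 = c 6 := rfl
  have h7 : tr12 c t 7 = c 7 + 3 * t * c 6 := rfl
  have h8 : tr12 c t 8 = c 8 + 2 * t * c 7 + 3 * t ^ 2 * c 6 := rfl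
  have h9 : tr12 c t 9 = c 9 + t * c 8 + t ^ 2 * c 7 + t ^ 3 * c 6 := rfl
  unfold PT
  rw [h0, h1, h2, h3, h4, h5, h6, h7, h8, h9]
  ring

lemma act_tr12 (c : Fin 10 → R) (t : R) : act c (Matrix.transvection 1 2 t) = tr12 c t := by
  funext m
  fin_cases m <;>
  (simp [act, pull, Pool.Agent.Helper83.PC.cub, Pool.Agent.Helper83.PC.dcub, Pool.Agent.Helper83.PC.mcub,
    Matrix.transvection, Matrix.single, tr12]; try ring)

/-- The coefficients after the transvection `20`. -/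
def tr20 (c : Fin 10 → R) (t : R) : Fin 10 → R :=
  ![c 0 + t * c 2 + t ^ 2 * c 5 + t ^ 3 * c 9,
    c 1 + t * c 4 + t ^ 2 * c 8,
    c 2 + 2 * t * c 5 + 3 * t ^ 2 * c 9,
    c 3 + t * c 7,
    c 4 + 2 * t * c 8,
    c 5 + 3 * t * c 9,
    c 6,
    c 7,
    c 8,
    c 9]

lemma PS_tr20 (c : Fin 10 → R) (t : R) : PS (tr20 c t) = PS c := by
  have h0 : tr20 c t 0 = c 0 + t * c 2 + t ^ 2 * c 5 + t ^ 3 * c 9 := rfl
  have h1 : tr20 c t 1 = c 1 + t * c 4 + t ^ 2 * c 8 := rfl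
  have h2 : tr20 c t 2 = c 2 + 2 * t * c 5 + 3 * t ^ 2 * c 9 := rfl
  have h3 : tr20 c t 3 = c 3 + t * c 7 := rfl
  have h4 : tr20 c t 4 = c 4 + 2 * t * c 8 := rfl
  have h5 : tr20 c t 5 = c 5 + 3 * t * c 9 := rfl
  have h6 : tr20 c t 6 = c 6 := rfl
  have h7 : tr20 c t 7 = c 7 := rfl
  have h8 : tr20 c t 8 = c 8 := rfl
  have h9 : tr20 c t 9 = c 9 := rfl
  unfold PS
  rw [h0, h1, h2, h3, h4, h5, h6, h7, h8, h9]
  ring

lemma PT_tr20 (c : Fin 10 → R) (t : R) : PT (tr20 c t) = PT c := by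
  have h0 : tr20 c t 0 = c 0 + t * c 2 + t ^ 2 * c 5 + t ^ 3 * c 9 := rfl
  have h1 : tr20 c t 1 = c 1 + t * c 4 + t ^ 2 * c 8 := rfl
  have h2 : tr20 c t 2 = c 2 + 2 * t * c 5 + 3 * t ^ 2 * c 9 := rfl
  have h3 : tr20 c t 3 = c 3 + t * c 7 := rfl
  have h4 : tr20 c t 4 = c 4 + 2 * t * c 8 := rfl
  have h5 : tr20 c t 5 = c 5 + 3 * t * c 9 := rfl
  have h6 : tr20 c t 6 = c 6 := rfl
  have h7 : tr20 c t 7 = c 7 := rfl
  have h8 : tr20 c t 8 = c 8 := rfl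
  have h9 : tr20 c t 9 = c 9 := rfl
  unfold PT
  rw [h0, h1, h2, h3, h4, h5, h6, h7, h8, h9]
  ring

lemma act_tr20 (c : Fin 10 → R) (t : R) : act c (Matrix.transvection 2 0 t) = tr20 c t := by
  funext m
  fin_cases m <;>
  (simp [act, pull, Pool.Agent.Helper83.PC.cub, Pool.Agent.Helper83.PC.dcub, Pool.Agent.Helper83.PC.mcub,
    Matrix.transvection, Matrix.single, tr20]; try ring)

/-- The coefficients after the transvection `21`. -/
def tr21 (c : Fin 10 → R) (t : R) : Fin 10 → R :=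
  ![c 0,
    c 1 + t * c 2,
    c 2,
    c 3 + t * c 4 + t ^ 2 * c 5,
    c 4 + 2 * t * c 5,
    c 5,
    c 6 + t * c 7 + t ^ 2 * c 8 + t ^ 3 * c 9,
    c 7 + 2 * t * c 8 + 3 * t ^ 2 * c 9,
    c 8 + 3 * t * c 9,
    c 9]

lemma PS_tr21 (c : Fin 10 → R) (t : R) : PS (tr21 c t) = PS c := by
  have h0 : tr21 c t 0 = c 0 := rfl
  have h1 : tr21 c t 1 = c 1 + t * c 2 := rfl
  have h2 : tr21 c t 2 = c 2 := rfl
  have h3 : tr21 c t 3 = c 3 + t * c 4 + t ^ 2 * c 5 := rfl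
  have h4 : tr21 c t 4 = c 4 + 2 * t * c 5 := rfl
  have h5 : tr21 c t 5 = c 5 := rfl
  have h6 : tr21 c t 6 = c 6 + t * c 7 + t ^ 2 * c 8 + t ^ 3 * c 9 := rfl
  have h7 : tr21 c t 7 = c 7 + 2 * t * c 8 + 3 * t ^ 2 * c 9 := rfl
  have h8 : tr21 c t 8 = c 8 + 3 * t * c 9 := rfl
  have h9 : tr21 c t 9 = c 9 := rfl
  unfold PS
  rw [h0, h1, h2, h3, h4, h5, h6, h7, h8, h9]
  ring

lemma PT_tr21 (c : Fin 10 → R) (t : R) : PT (tr21 c t) = PT c := by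
  have h0 : tr21 c t 0 = c 0 := rfl
  have h1 : tr21 c t 1 = c 1 + t * c 2 := rfl
  have h2 : tr21 c t 2 = c 2 := rfl
  have h3 : tr21 c t 3 = c 3 + t * c 4 + t ^ 2 * c 5 := rfl
  have h4 : tr21 c t 4 = c 4 + 2 * t * c 5 := rfl
  have h5 : tr21 c t 5 = c 5 := rfl
  have h6 : tr21 c t 6 = c 6 + t * c 7 + t ^ 2 * c 8 + t ^ 3 * c 9 := rfl
  have h7 : tr21 c t 7 = c 7 + 2 * t * c 8 + 3 * t ^ 2 * c 9 := rfl
  have h8 : tr21 c t 8 = c 8 + 3 * t * c 9 := rfl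
  have h9 : tr21 c t 9 = c 9 := rfl
  unfold PT
  rw [h0, h1, h2, h3, h4, h5, h6, h7, h8, h9]
  ring

lemma act_tr21 (c : Fin 10 → R) (t : R) : act c (Matrix.transvection 2 1 t) = tr21 c t := by
  funext m
  fin_cases m <;>
  (simp [act, pull, Pool.Agent.Helper83.PC.cub, Pool.Agent.Helper83.PC.dcub, Pool.Agent.Helper83.PC.mcub,
    Matrix.transvection, Matrix.single, tr21]; try ring)

/-- The coefficients after a diagonal substitution. -/
def dg (c : Fin 10 → R) (D : Fin 3 → R) : Fin 10 → R :=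
  ![D 0 ^ 3 * c 0,
    D 0 ^ 2 * D 1 ^ 1 * c 1,
    D 0 ^ 2 * D 2 ^ 1 * c 2,
    D 0 ^ 1 * D 1 ^ 2 * c 3,
    D 0 ^ 1 * D 1 ^ 1 * D 2 ^ 1 * c 4,
    D 0 ^ 1 * D 2 ^ 2 * c 5,
    D 1 ^ 3 * c 6,
    D 1 ^ 2 * D 2 ^ 1 * c 7,
    D 1 ^ 1 * D 2 ^ 2 * c 8,
    D 2 ^ 3 * c 9]

lemma act_dg (c : Fin 10 → R) (D : Fin 3 → R) : act c (Matrix.diagonal D) = dg c D := by
  funext m
  fin_cases m <;>
  (simp [act, pull, Pool.Agent.Helper83.PC.cub, Pool.Agent.Helper83.PC.dcub, Pool.Agent.Helper83.PC.mcub,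
    Matrix.diagonal, dg]; try ring)

lemma PS_dg (c : Fin 10 → R) (D : Fin 3 → R) : PS (dg c D) = (D 0 * D 1 * D 2) ^ 4 * PS c := by
  have h0 : dg c D 0 = D 0 ^ 3 * c 0 := rfl
  have h1 : dg c D 1 = D 0 ^ 2 * D 1 ^ 1 * c 1 := rfl
  have h2 : dg c D 2 = D 0 ^ 2 * D 2 ^ 1 * c 2 := rfl
  have h3 : dg c D 3 = D 0 ^ 1 * D 1 ^ 2 * c 3 := rfl
  have h4 : dg c D 4 = D 0 ^ 1 * D 1 ^ 1 * D 2 ^ 1 * c 4 := rfl
  have h5 : dg c D 5 = D 0 ^ 1 * D 2 ^ 2 * c 5 := rfl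
  have h6 : dg c D 6 = D 1 ^ 3 * c 6 := rfl
  have h7 : dg c D 7 = D 1 ^ 2 * D 2 ^ 1 * c 7 := rfl
  have h8 : dg c D 8 = D 1 ^ 1 * D 2 ^ 2 * c 8 := rfl
  have h9 : dg c D 9 = D 2 ^ 3 * c 9 := rfl
  unfold PS
  rw [h0, h1, h2, h3, h4, h5, h6, h7, h8, h9]
  ring

lemma PT_dg (c : Fin 10 → R) (D : Fin 3 → R) : PT (dg c D) = (D 0 * D 1 * D 2) ^ 6 * PT c := by
  have h0 : dg c D 0 = D 0 ^ 3 * c 0 := rfl
  have h1 : dg c D 1 = D 0 ^ 2 * D 1 ^ 1 * c 1 := rfl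
  have h2 : dg c D 2 = D 0 ^ 2 * D 2 ^ 1 * c 2 := rfl
  have h3 : dg c D 3 = D 0 ^ 1 * D 1 ^ 2 * c 3 := rfl
  have h4 : dg c D 4 = D 0 ^ 1 * D 1 ^ 1 * D 2 ^ 1 * c 4 := rfl
  have h5 : dg c D 5 = D 0 ^ 1 * D 2 ^ 2 * c 5 := rfl
  have h6 : dg c D 6 = D 1 ^ 3 * c 6 := rfl
  have h7 : dg c D 7 = D 1 ^ 2 * D 2 ^ 1 * c 7 := rfl
  have h8 : dg c D 8 = D 1 ^ 1 * D 2 ^ 2 * c 8 := rfl
  have h9 : dg c D 9 = D 2 ^ 3 * c 9 := rfl
  unfold PT
  rw [h0, h1, h2, h3, h4, h5, h6, h7, h8, h9]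
  ring

lemma transvection_map {S : Type*} [CommRing S] (f : S →+* R) (i j : Fin 3) (t : S) :
    (Matrix.transvection i j t).map f = Matrix.transvection i j (f t) := by
  unfold Matrix.transvection
  ext a b
  simp only [Matrix.map_apply, Matrix.add_apply, map_add, Matrix.one_apply, Matrix.single, Matrix.of_apply]
  split_ifs <;> simp

end ring

section field

variable {k R : Type*} [Field k] [CommRing R] [Algebra k R]

theorem PS_act (c : Fin 10 → R) (N : Matrix (Fin 3) (Fin 3) k) :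
    PS (act c (N.map (algebraMap k R))) = algebraMap k R N.det ^ 4 * PS c := by
  revert c
  refine Matrix.diagonal_transvection_induction (fun N => ∀ c : Fin 10 → R,
    PS (act c (N.map (algebraMap k R))) = algebraMap k R N.det ^ 4 * PS c) N ?_ ?_ ?_
  · intro D _ c
    rw [Matrix.det_diagonal, Fin.prod_univ_three, Matrix.diagonal_map (map_zero _), act_dg, PS_dg, map_mul, map_mul]
  · intro t c
    rw [t.det, map_one, one_pow, one_mul]
    obtain ⟨i, j, hij, t⟩ := t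
    simp only [Matrix.TransvectionStruct.toMatrix_mk]
    rw [transvection_map]
    fin_cases i <;> fin_cases j
    · exact absurd rfl hij
    · exact (congrArg PS (act_tr01 c (algebraMap k R t))).trans (PS_tr01 c _)
    · exact (congrArg PS (act_tr02 c (algebraMap k R t))).trans (PS_tr02 c _)
    · exact (congrArg PS (act_tr10 c (algebraMap k R t))).trans (PS_tr10 c _)
    · exact absurd rfl hij
    · exact (congrArg PS (act_tr12 c (algebraMap k R t))).trans (PS_tr12 c _)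
    · exact (congrArg PS (act_tr20 c (algebraMap k R t))).trans (PS_tr20 c _)
    · exact (congrArg PS (act_tr21 c (algebraMap k R t))).trans (PS_tr21 c _)
    · exact absurd rfl hij
  · intro A B hA hB c
    have h1 : (A * B).map (algebraMap k R) = A.map (algebraMap k R) * B.map (algebraMap k R) := by
      ext a b
      simp [Matrix.mul_apply]
    rw [h1, act_mul, hB, hA, Matrix.det_mul, map_mul]
    ring

theorem PT_act (c : Fin 10 → R) (N : Matrix (Fin 3) (Fin 3) k) :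
    PT (act c (N.map (algebraMap k R))) = algebraMap k R N.det ^ 6 * PT c := by
  revert c
  refine Matrix.diagonal_transvection_induction (fun N => ∀ c : Fin 10 → R,
    PT (act c (N.map (algebraMap k R))) = algebraMap k R N.det ^ 6 * PT c) N ?_ ?_ ?_
  · intro D _ c
    rw [Matrix.det_diagonal, Fin.prod_univ_three, Matrix.diagonal_map (map_zero _), act_dg, PT_dg, map_mul, map_mul]
  · intro t c
    rw [t.det, map_one, one_pow, one_mul]
    obtain ⟨i, j, hij, t⟩ := t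
    simp only [Matrix.TransvectionStruct.toMatrix_mk]
    rw [transvection_map]
    fin_cases i <;> fin_cases j
    · exact absurd rfl hij
    · exact (congrArg PT (act_tr01 c (algebraMap k R t))).trans (PT_tr01 c _)
    · exact (congrArg PT (act_tr02 c (algebraMap k R t))).trans (PT_tr02 c _)
    · exact (congrArg PT (act_tr10 c (algebraMap k R t))).trans (PT_tr10 c _)
    · exact absurd rfl hij
    · exact (congrArg PT (act_tr12 c (algebraMap k R t))).trans (PT_tr12 c _)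
    · exact (congrArg PT (act_tr20 c (algebraMap k R t))).trans (PT_tr20 c _)
    · exact (congrArg PT (act_tr21 c (algebraMap k R t))).trans (PT_tr21 c _)
    · exact absurd rfl hij
  · intro A B hA hB c
    have h1 : (A * B).map (algebraMap k R) = A.map (algebraMap k R) * B.map (algebraMap k R) := by
      ext a b
      simp [Matrix.mul_apply]
    rw [h1, act_mul, hB, hA, Matrix.det_mul, map_mul]
    ring

theorem Dsc_act (c : Fin 10 → R) (N : Matrix (Fin 3) (Fin 3) k) :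
    Dsc (act c (N.map (algebraMap k R))) = algebraMap k R N.det ^ 12 * Dsc c := by
  unfold Dsc
  rw [PS_act, PT_act]
  ring

end field

end Pool.Agent.Helper83.KPA
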