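import Mathlib
import Pool.Agent.Helper15.KP.Defs2
import Pool.Agent.Helper83.KPA.Smo
import Pool.Agent.Helper83.KPA.Deg

/-!
# KP: coordinates for the pencil of plane cubics
-/

set_option linter.unusedSectionVars false

namespace Pool.Agent.Helper83.KPA

open Pool.Agent.Helper15.KP (PS PT Dsc Dbin Cl)
open Pool.Agent.Helper83.PC (act act_mul act_map pull cub dcub mcub cub_act cub_scale)

universe u

/-! ### Coefficients of cubic forms -/

/-- The exponents of the ten monomials. -/
def tb : Fin 10 → Fin 3 → ℕ :=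
  ![![3, 0, 0], ![2, 1, 0], ![2, 0, 1], ![1, 2, 0], ![1, 1, 1], ![1, 0, 2], ![0, 3, 0], ![0, 2, 1], ![0, 1, 2],
    ![0, 0, 3]]

lemma tb_inj : Function.Injective tb := by decide

lemma cub_sum {R : Type*} [CommRing R] (c : Fin 10 → R) (x : Fin 3 → R) : cub c (x 0) (x 1) (x 2) =
    ∑ i, c i * (x 0 ^ tb i 0 * x 1 ^ tb i 1 * x 2 ^ tb i 2) := by
  simp [Fin.sum_univ_succ, tb, cub]
  ring

lemma exists_tb (d : Fin 3 → ℕ) (h : d 0 + d 1 + d 2 = 3) : ∃ i, d = tb i := by
  have h0 : d 0 ≤ 3 := by omega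
  have h1 : d 1 ≤ 3 := by omega
  have e : d = ![d 0, d 1, 3 - d 0 - d 1] := by
    funext i
    fin_cases i
    · rfl
    · rfl
    · show d 2 = 3 - d 0 - d 1
      omega
  have h2 : d 0 + d 1 ≤ 3 := by omega
  rw [e]
  generalize d 0 = a at *
  generalize d 1 = b at *
  interval_cases a <;> interval_cases b <;> first | omega | decide

section coeff

open MvPolynomial

variable {k : Type u} [Field k]

/-- The exponent vectors. -/
noncomputable def ex (i : Fin 10) : Fin 3 →₀ ℕ := Finsupp.equivFunOnFinite.symm (tb i)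

/-- The coefficients of a cubic form. -/
noncomputable def cf (P : MvPolynomial (Fin 3) k) : Fin 10 → k := fun i => P.coeff (ex i)

/-- The coefficients of a linear form. -/
noncomputable def lf (P : MvPolynomial (Fin 3) k) : Fin 3 → k := fun i => P.coeff (Finsupp.single i 1)

lemma ex_inj : Function.Injective ex := fun i j h => tb_inj (Finsupp.equivFunOnFinite.symm.injective h)

lemma ex_apply (i : Fin 10) (j : Fin 3) : ex i j = tb i j := rfl

lemma eq_sum {P : MvPolynomial (Fin 3) k} (hP : P.IsHomogeneous 3) : P = ∑ i, monomial (ex i) (cf P i) := by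
  classical
  have h1 : P.support ⊆ Finset.univ.image ex := by
    intro d hd
    have h2 := hP (mem_support_iff.mp hd)
    have h3 : d 0 + d 1 + d 2 = 3 := by
      rw [Finsupp.weight_apply, Finsupp.sum_fintype _ _ (by simp)] at h2
      simpa [Fin.sum_univ_three] using h2
    obtain ⟨i, hi⟩ := exists_tb d h3
    rw [Finset.mem_image]
    refine ⟨i, Finset.mem_univ _, ?_⟩
    ext j
    rw [ex_apply, ← hi]
  conv_lhs => rw [P.as_sum]
  rw [Finset.sum_subset h1 (fun d _ hd => by rw [notMem_support_iff.mp hd, map_zero]),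
    Finset.sum_image (fun _ _ _ _ h => ex_inj h)]
  rfl

/-- The values of a cubic form. -/
theorem cf_spec {P : MvPolynomial (Fin 3) k} (hP : P.IsHomogeneous 3) {R : Type*} [CommRing R] [Algebra k R]
    (x : Fin 3 → R) : aeval x P = cub (fun i => algebraMap k R (cf P i)) (x 0) (x 1) (x 2) := by
  conv_lhs => rw [eq_sum hP]
  rw [map_sum, cub_sum]
  refine Finset.sum_congr rfl fun i _ => ?_
  rw [aeval_monomial, Finsupp.prod_fintype _ _ (by simp), Fin.prod_univ_three]
  rfl

/-- The values of a linear form. -/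
theorem lf_spec {P : MvPolynomial (Fin 3) k} (hP : P.IsHomogeneous 1) {R : Type*} [CommRing R] [Algebra k R]
    (x : Fin 3 → R) : aeval x P = algebraMap k R (lf P 0) * x 0 + algebraMap k R (lf P 1) * x 1 +
      algebraMap k R (lf P 2) * x 2 := by
  classical
  have h1 : P.support ⊆ Finset.univ.image (fun i : Fin 3 => Finsupp.single i 1) := by
    intro d hd
    have h2 := hP (mem_support_iff.mp hd)
    have h3 : d 0 + d 1 + d 2 = 1 := by
      rw [Finsupp.weight_apply, Finsupp.sum_fintype _ _ (by simp)] at h2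
      simpa [Fin.sum_univ_three] using h2
    rw [Finset.mem_image]
    have h4 : d 0 = 1 ∧ d 1 = 0 ∧ d 2 = 0 ∨ d 0 = 0 ∧ d 1 = 1 ∧ d 2 = 0 ∨ d 0 = 0 ∧ d 1 = 0 ∧ d 2 = 1 := by
      omega
    rcases h4 with ⟨a0, a1, a2⟩ | ⟨a0, a1, a2⟩ | ⟨a0, a1, a2⟩
    · refine ⟨0, Finset.mem_univ _, ?_⟩
      ext j
      fin_cases j <;> simp [a0, a1, a2]
    · refine ⟨1, Finset.mem_univ _, ?_⟩
      ext j
      fin_cases j <;> simp [a0, a1, a2]
    · refine ⟨2, Finset.mem_univ _, ?_⟩
      ext j
      fin_cases j <;> simp [a0, a1, a2]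
  have h2 : P = ∑ i : Fin 3, monomial (Finsupp.single i 1) (lf P i) := by
    conv_lhs => rw [P.as_sum]
    rw [Finset.sum_subset h1 (fun d _ hd => by rw [notMem_support_iff.mp hd, map_zero]),
      Finset.sum_image (fun _ _ _ _ h => (Finsupp.single_left_injective one_ne_zero) h)]
    rfl
  conv_lhs => rw [h2]
  rw [map_sum, Fin.sum_univ_three]
  simp [aeval_monomial]

lemma sqz_map {R S : Type*} [CommRing R] [CommRing S] (f : R →+* S) (a : Fin 3 → R) (i : Fin 10) :
    f (sqz a i) = sqz (fun j => f (a j)) i := by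
  fin_cases i <;> simp [sqz, map_ofNat]

/-- The values of the pencil. -/
theorem pen_spec {a b f g : MvPolynomial (Fin 3) k} (ha : a.IsHomogeneous 1) (hb : b.IsHomogeneous 1)
    (hf : f.IsHomogeneous 3) (hg : g.IsHomogeneous 3) {R : Type*} [CommRing R] [Algebra k R] (l : R)
    (p : Fin 3 → R) :
    cub (fun i => Polynomial.aeval l (pen (lf a) (lf b) (cf f) (cf g) i)) (p 0) (p 1) (p 2) =
      l ^ 3 * p 2 * (aeval p b) ^ 2 - 4 * l ^ 2 * aeval p g + 4 * l * aeval p f - p 2 * (aeval p a) ^ 2 := by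
  have h1 := cub_sqz (fun j => algebraMap k R (lf a j)) (p 0) (p 1) (p 2)
  have h2 := cub_sqz (fun j => algebraMap k R (lf b j)) (p 0) (p 1) (p 2)
  rw [← lf_spec ha p] at h1
  rw [← lf_spec hb p] at h2
  have h3 : ∀ i, Polynomial.aeval l (pen (lf a) (lf b) (cf f) (cf g) i) =
      sqz (fun j => algebraMap k R (lf b j)) i * l ^ 3 - 4 * algebraMap k R (cf g i) * l ^ 2 +
      4 * algebraMap k R (cf f i) * l - sqz (fun j => algebraMap k R (lf a j)) i := by
    intro i
    unfold pen
    simp only [map_sub, map_add, map_mul, map_pow, Polynomial.aeval_C, Polynomial.aeval_X, map_ofNat]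
    rw [sqz_map, sqz_map]
  rw [show (fun i => Polynomial.aeval l (pen (lf a) (lf b) (cf f) (cf g) i)) = _ from funext h3]
  rw [cf_spec hf, cf_spec hg, mul_assoc (l ^ 3), ← h2, ← h1]
  unfold cub
  ring

end coeff

section main

open Polynomial

variable {k : Type u} [Field k] [IsAlgClosed k] [CharZero k]

lemma Dsc_map {R S : Type*} [CommRing R] [CommRing S] (f : R →+* S) (c : Fin 10 → R) :
    Dsc (fun i => f (c i)) = f (Dsc c) := by
  unfold Dsc
  rw [PS_map, PT_map, map_add, map_pow, map_pow]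

lemma eval_pderiv (c : Fin 10 → k) (p : Fin 3 → k) (j : Fin 3) :
    MvPolynomial.eval p (MvPolynomial.pderiv j (cubP c)) = dcub c p (Pi.single j 1) := by
  unfold cubP cub dcub
  fin_cases j <;> simp [MvPolynomial.pderiv_X] <;> ring

theorem exists_coord (a b f g : MvPolynomial (Fin 3) k)
    (ha : a.IsHomogeneous 1) (hb : b.IsHomogeneous 1) (hf : f.IsHomogeneous 3) (hg : g.IsHomogeneous 3)
    (hsm : ∃ l : k, ∀ p : Fin 3 → k, (∀ i, MvPolynomial.eval p (MvPolynomial.pderiv i (Cl a b f g l)) = 0) → p = 0) :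
    ∃ (N : Matrix (Fin 3) (Fin 3) k) (c : Fin 10 → k[X]) (A B : k[X]), N.det ≠ 0 ∧ c 0 ≠ 0 ∧ Dbin c ≠ 0 ∧
      Dsc c ≠ 0 ∧ A.natDegree ≤ 8 ∧ B.natDegree ≤ 12 ∧ PS c = X ^ 2 * A ∧ PT c = X ^ 3 * B ∧
      ∀ (R : Type u) [Field R] [Algebra k R] (l s t D : R) (p : Fin 3 → R),
        (∀ i, D * p i = algebraMap k R (N i 0) * s + algebraMap k R (N i 1) * t + algebraMap k R (N i 2)) →
        Pool.Agent.Helper15.KP.cub (fun i => aeval l (c i)) s t =
          D ^ 3 * (l ^ 3 * p 2 * (MvPolynomial.aeval p b) ^ 2 - 4 * l ^ 2 * MvPolynomial.aeval p g +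
            4 * l * MvPolynomial.aeval p f - p 2 * (MvPolynomial.aeval p a) ^ 2) := by
  obtain ⟨l0, hl0⟩ := hsm
  set P : Fin 10 → k[X] := pen (lf a) (lf b) (cf f) (cf g) with hP
  -- the smooth member
  obtain ⟨d, hd⟩ : ∃ d : Fin 10 → k, d = fun i => (P i).eval l0 := ⟨_, rfl⟩
  have hd' : ∀ p : Fin 3 → k, (∀ q, dcub d p q = 0) → p = 0 := by
    intro p hp
    apply hl0
    intro i
    have hCl : Cl a b f g l0 = cubP d := by
      have h1 := pen_spec ha hb hf hg (R := MvPolynomial (Fin 3) k) (MvPolynomial.C l0) MvPolynomial.X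
      rw [← hP] at h1
      have h2 : ∀ i, aeval (MvPolynomial.C l0 : MvPolynomial (Fin 3) k) (P i) = MvPolynomial.C (d i) := by
        intro i
        rw [hd]
        have h3 : (MvPolynomial.C l0 : MvPolynomial (Fin 3) k) = algebraMap k _ l0 := rfl
        rw [h3, aeval_algebraMap_apply]
        rfl
      rw [show (fun i => aeval (MvPolynomial.C l0 : MvPolynomial (Fin 3) k) (P i)) = fun i => MvPolynomial.C (d i) from
        funext h2] at h1
      unfold cubP
      rw [h1]
      simp only [MvPolynomial.aeval_X_left_apply]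
      unfold Cl
      simp only [MvPolynomial.C_pow, MvPolynomial.C_mul, map_ofNat]
    rw [hCl, eval_pderiv]
    exact hp _
  obtain ⟨N, hN, hN0, hNb⟩ := exists_trans d hd'
  have hDd : Dsc d ≠ 0 := by
    intro h
    obtain ⟨p, hp, hp2⟩ := exists_sing h
    exact hp (hd' p hp2)
  obtain ⟨A, B, hA, hB, hS, hT⟩ := pen_deg_act (lf a) (lf b) (cf f) (cf g) N
  have hev : ∀ i, eval l0 (act P (N.map (algebraMap k k[X])) i) = act d N i := by
    intro i
    have h1 := act_map (evalRingHom l0) P (N.map (algebraMap k k[X]))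
    have h2 : (N.map (algebraMap k k[X])).map (evalRingHom l0) = N := by
      ext i j
      simp
    rw [h2] at h1
    have h3 : (fun i => evalRingHom l0 (P i)) = d := by
      rw [hd]
      rfl
    rw [h3] at h1
    exact (congrFun h1 i).symm
  refine ⟨N, act P (N.map (algebraMap k k[X])), A, B, hN, ?_, ?_, ?_, hA, hB, hS, hT, ?_⟩
  · intro h
    apply hN0
    rw [← hev, h, eval_zero]
  · intro h
    apply hNb
    have h1 : eval l0 (Dbin (act P (N.map (algebraMap k k[X])))) = Dbin (act d N) := by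
      unfold Dbin
      simp only [eval_add, eval_sub, eval_mul, eval_pow, hev, eval_ofNat]
    rw [← h1, h, eval_zero]
  · intro h
    have h1 := Dsc_act (k := k) d N
    have h4 : (fun i => evalRingHom l0 (act P (N.map (algebraMap k k[X])) i)) = act d N := funext hev
    have h2 : Dsc (act d N) = evalRingHom l0 (Dsc (act P (N.map (algebraMap k k[X])))) := by
      rw [← Dsc_map, h4]
    have h5 : N.map (algebraMap k k) = N := by
      ext i j
      rfl
    rw [h5, h2, h, map_zero] at h1
    have h6 := mul_eq_zero.mp h1.symm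
    rcases h6 with h6 | h6
    · exact hN (pow_eq_zero_iff (n := 12) (by norm_num) |>.mp h6)
    · exact hDd h6
  · intro R _ _ l s t D p hp
    have h1 : Pool.Agent.Helper15.KP.cub (fun i => aeval l (act P (N.map (algebraMap k k[X])) i)) s t =
        cub (fun i => aeval l (act P (N.map (algebraMap k k[X])) i)) s t 1 := by
      unfold Pool.Agent.Helper15.KP.cub cub
      ring
    have h2 := act_map ((aeval l : k[X] →ₐ[k] R) : k[X] →+* R) P (N.map (algebraMap k k[X]))
    have h3 : (N.map (algebraMap k k[X])).map ((aeval l : k[X] →ₐ[k] R) : k[X] →+* R) = N.map (algebraMap k R) := by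
      ext i j
      simp
    rw [h3] at h2
    have h4 : (fun i => aeval l (act P (N.map (algebraMap k k[X])) i)) =
        act (fun i => aeval l (P i)) (N.map (algebraMap k R)) := h2.symm
    rw [h1, h4, cub_act]
    simp only [Matrix.map_apply, mul_one]
    rw [← hp 0, ← hp 1, ← hp 2, cub_scale, pen_spec ha hb hf hg]

end main

end Pool.Agent.Helper83.KPA
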