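import Mathlib
import Pool.Agent.Helper83.KPA.Qua

/-!
# KP: coordinates for the family of quartics, the discriminant
-/

set_option linter.unusedSectionVars false

namespace Pool.Agent.Helper83.KPA

open Pool.Agent.Helper15.KP (QS QT qua)
open Polynomial

universe u

variable {k : Type u} [Field k] [IsAlgClosed k] [CharZero k]

lemma qua_X (e : Fin 5 → k) : qua (fun i => C (e i)) (X : k[X]) =
    C (e 4) * X ^ 4 + C (e 3) * X ^ 3 + C (e 2) * X ^ 2 + C (e 1) * X + C (e 0) := rfl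

lemma coeff_qua (e : Fin 5 → k) (i : Fin 5) : (qua (fun i => C (e i)) (X : k[X])).coeff i = e i := by
  rw [qua_X]
  fin_cases i <;> simp [coeff_X, coeff_C]

lemma coeff_eq {e : Fin 5 → k} {x4 x3 x2 x1 x0 : k} (h : qua (fun i => C (e i)) (X : k[X]) =
    C x4 * X ^ 4 + C x3 * X ^ 3 + C x2 * X ^ 2 + C x1 * X + C x0) : e = ![x0, x1, x2, x3, x4] := by
  funext i
  rw [← coeff_qua e i, h]
  fin_cases i <;> simp [coeff_X, coeff_C]

/-- The discriminant of a squarefree binary quartic. -/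
theorem disc_ne (e : Fin 5 → k) (h3 : 3 ≤ (qua (fun i => C (e i)) (X : k[X])).natDegree)
    (hs : (qua (fun i => C (e i)) (X : k[X])).Separable) : 4 * QS e ^ 3 + QT e ^ 2 ≠ 0 := by
  obtain ⟨G, hG⟩ : ∃ G, G = qua (fun i => C (e i)) (X : k[X]) := ⟨_, rfl⟩
  rw [← hG] at h3 hs
  have hnd := nodup_roots hs
  have hcard : G.roots.card = G.natDegree := IsAlgClosed.card_roots_eq_natDegree
  have hprod := (IsAlgClosed.splits G).eq_prod_roots
  have hG0 : G ≠ 0 := by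
    rintro rfl
    simp at h3
  have hc : G.leadingCoeff ≠ 0 := leadingCoeff_ne_zero.mpr hG0
  obtain ⟨c, hcdef⟩ : ∃ c, c = G.leadingCoeff := ⟨_, rfl⟩
  rw [← hcdef] at hprod hc
  have h4 : G.natDegree ≤ 4 := by
    rw [hG, qua_X]
    compute_degree
  have h27 : (-27 : k) ≠ 0 := by norm_num
  rcases (show G.natDegree = 3 ∨ G.natDegree = 4 by omega) with hd | hd
  · rw [hd] at hcard
    obtain ⟨r1, r2, r3, hr⟩ := Multiset.card_eq_three.mp hcard
    rw [hr] at hprod hnd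
    simp only [Multiset.insert_eq_cons, Multiset.map_cons, Multiset.map_singleton, Multiset.prod_cons,
      Multiset.prod_singleton] at hprod
    simp at hnd
    obtain ⟨⟨n12, n13⟩, n23⟩ := hnd
    have he : e = ![-c * (r1 * r2 * r3), c * (r1 * r2 + r1 * r3 + r2 * r3), -c * (r1 + r2 + r3), c, 0] := by
      apply coeff_eq
      rw [← hG, hprod]
      simp only [C_mul, C_add, C_neg, C_0]
      ring
    rw [he, disc3 _ _ _ c r1 r2 r3 rfl rfl rfl]
    exact mul_ne_zero (mul_ne_zero h27 (pow_ne_zero _ hc)) (pow_ne_zero _ (mul_ne_zero (mul_ne_zero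
      (sub_ne_zero.mpr n12) (sub_ne_zero.mpr n13)) (sub_ne_zero.mpr n23)))
  · rw [hd] at hcard
    obtain ⟨r0, hr0⟩ := Multiset.card_pos_iff_exists_mem.mp (show 0 < G.roots.card by omega)
    obtain ⟨m, hm⟩ := Multiset.exists_cons_of_mem hr0
    rw [hm, Multiset.card_cons] at hcard
    obtain ⟨r1, r2, r3, hr⟩ := Multiset.card_eq_three.mp (show m.card = 3 by omega)
    rw [hm, hr] at hprod hnd
    simp only [Multiset.insert_eq_cons, Multiset.map_cons, Multiset.map_singleton, Multiset.prod_cons,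
      Multiset.prod_singleton] at hprod
    simp at hnd
    obtain ⟨⟨n01, n02, n03⟩, ⟨n12, n13⟩, n23⟩ := hnd
    have he : e = ![c * (r0 * r1 * r2 * r3), -c * (r0 * r1 * r2 + r0 * r1 * r3 + r0 * r2 * r3 + r1 * r2 * r3),
        c * (r0 * r1 + r0 * r2 + r0 * r3 + r1 * r2 + r1 * r3 + r2 * r3), -c * (r0 + r1 + r2 + r3), c] := by
      apply coeff_eq
      rw [← hG, hprod]
      simp only [C_mul, C_add, C_neg]
      ring
    rw [he, disc4 _ _ _ _ c r0 r1 r2 r3 rfl rfl rfl rfl]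
    exact mul_ne_zero (mul_ne_zero h27 (pow_ne_zero _ hc)) (pow_ne_zero _ (mul_ne_zero (mul_ne_zero
      (mul_ne_zero (mul_ne_zero (mul_ne_zero
      (sub_ne_zero.mpr n01) (sub_ne_zero.mpr n02)) (sub_ne_zero.mpr n03))
      (sub_ne_zero.mpr n12)) (sub_ne_zero.mpr n13)) (sub_ne_zero.mpr n23)))

theorem exists_coord2 {a b f2 g2 f4 g4 : k[X]} {f0 g0 : k} (ha : a.natDegree ≤ 1) (hb : b.natDegree ≤ 1)
    (hf2 : f2.natDegree ≤ 2) (hg2 : g2.natDegree ≤ 2) (hf4 : f4.natDegree ≤ 4) (hg4 : g4.natDegree ≤ 4)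
    (hsm : ∃ l : k, 3 ≤ (Gq a b f2 g2 f4 g4 f0 g0 l).natDegree ∧ (Gq a b f2 g2 f4 g4 f0 g0 l).Separable) :
    ∃ (c0 : k) (e : Fin 5 → k[X]) (A B : k[X]), e 4 ≠ 0 ∧ 4 * QS e ^ 3 + QT e ^ 2 ≠ 0 ∧ QS e = X ^ 2 * A ∧
      QT e = X ^ 3 * B ∧ A.natDegree ≤ 8 ∧ B.natDegree ≤ 12 ∧ (f0 ≠ 0 ∨ g0 ≠ 0) ∧
      ∀ (R : Type u) [Field R] [Algebra k R] (l s s' : R), (s - algebraMap k R c0) * s' = 1 →
        s' ^ 4 * ((l ^ 3 * (aeval s b) ^ 2 - (aeval s a) ^ 2 + 4 * l * aeval s f2 - 4 * l ^ 2 * aeval s g2) ^ 2 -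
          4 * (4 * l * (algebraMap k R f0 - l * algebraMap k R g0)) * (4 * l * (aeval s f4 - l * aeval s g4))) =
          qua (fun i => aeval l (e i)) s' := by
  obtain ⟨l0, hl3, hls⟩ := hsm
  have hGq := Gq_eq ha hb hf2 hg2 hf4 hg4 (f0 := f0) (g0 := g0) l0
  obtain ⟨E, hE⟩ : ∃ E, E = quE a b f2 g2 f4 g4 f0 g0 := ⟨_, rfl⟩
  obtain ⟨d, hd⟩ : ∃ d : Fin 5 → k, d = fun i => eval l0 (E i) := ⟨_, rfl⟩
  have hGd : Gq a b f2 g2 f4 g4 f0 g0 l0 = qua (fun i => C (d i)) X := by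
    rw [hGq, hd, hE]
  have hdisc : 4 * QS d ^ 3 + QT d ^ 2 ≠ 0 := by
    rw [hGd] at hl3 hls
    exact disc_ne d hl3 hls
  obtain ⟨A, B, hA, hB, hS, hT⟩ := quE_deg a b f2 g2 f4 g4 f0 g0
  rw [← hE] at hS hT
  -- a point where the quartic does not vanish
  obtain ⟨c0, hc0⟩ : ∃ c0 : k, eval c0 (Gq a b f2 g2 f4 g4 f0 g0 l0) ≠ 0 := by
    by_contra hcon
    push Not at hcon
    have h0 : Gq a b f2 g2 f4 g4 f0 g0 l0 = 0 := by
      have : Infinite k := IsAlgClosed.instInfinite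
      exact Polynomial.funext fun r => by rw [hcon r, eval_zero]
    rw [h0] at hl3
    simp at hl3
  have hmap : (fun i => eval l0 (inv5 E (C c0) i)) = inv5 d c0 := by
    funext i
    rw [hd]
    fin_cases i <;> simp [inv5]
  have hmapS : eval l0 (4 * QS (inv5 E (C c0)) ^ 3 + QT (inv5 E (C c0)) ^ 2) = 4 * QS d ^ 3 + QT d ^ 2 := by
    have h1 := QS_map (evalRingHom l0) (inv5 E (C c0))
    have h2 := QT_map (evalRingHom l0) (inv5 E (C c0))
    have h3 : (fun i => evalRingHom l0 (inv5 E (C c0) i)) = inv5 d c0 := hmap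
    rw [h3, QS_inv5] at h1
    rw [h3, QT_inv5] at h2
    rw [eval_add, eval_mul, eval_pow, eval_pow, eval_ofNat, h1, h2]
    rfl
  refine ⟨c0, inv5 E (C c0), A, B, ?_, ?_, ?_, ?_, hA, hB, ?_, ?_⟩
  · intro h
    apply hc0
    have h1 := congrFun hmap 4
    simp only [h, eval_zero] at h1
    rw [inv5_4] at h1
    rw [hGd, qua_X]
    simp only [eval_add, eval_mul, eval_C, eval_pow, eval_X]
    linear_combination -h1
  · intro h
    apply hdisc
    rw [← hmapS, h, eval_zero]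
  · rw [QS_inv5, hS]
  · rw [QT_inv5, hT]
  · by_contra hcon
    push Not at hcon
    obtain ⟨rfl, rfl⟩ := hcon
    have h1 : Gq a b f2 g2 f4 g4 0 0 l0 = (C (l0 ^ 3) * b ^ 2 - a ^ 2 + C (4 * l0) * f2 - C (4 * l0 ^ 2) * g2) ^ 2 := by
      unfold Gq
      simp
    rw [h1] at hls hl3
    obtain ⟨P, hP⟩ : ∃ P, P = C (l0 ^ 3) * b ^ 2 - a ^ 2 + C (4 * l0) * f2 - C (4 * l0 ^ 2) * g2 := ⟨_, rfl⟩
    rw [← hP] at hls hl3
    have h2 : IsUnit P := by
      have := hls.squarefree P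
      exact this (by rw [sq])
    rw [natDegree_pow, natDegree_eq_zero_of_isUnit h2] at hl3
    simp at hl3
  · intro R _ _ l s s' hs
    have h1 := quE_spec ha hb hf2 hg2 hf4 hg4 (f0 := f0) (g0 := g0) l s
    rw [← h1, qua_inv5 _ hs]
    congr 1
    funext i
    rw [hE]
    fin_cases i <;> simp [inv5, map_ofNat]

end Pool.Agent.Helper83.KPA
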